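import Pool.Agent.helper58.CRO.SpecK
import Pool.Agent.helper58.CRO.SpecE

/-!
# Row cro:KCS (MP_5bf3c3): the exact value of the optimal constant in dimension 2
-/

set_option autoImplicit false

open scoped Manifold ContDiff ENNReal

namespace Pool.Agent.CRO

theorem KCS_sphere : sphereVol 2 / Real.pi ^ 2 = 4 / Real.pi := by
  have hpi := Real.pi_pos
  have h1 : Real.Gamma (((2 : ℕ) : ℝ) / 2 + 1 / 2) = Real.sqrt Real.pi / 2 := by
    have h2 : (((2 : ℕ) : ℝ) / 2 + 1 / 2) = 1 / 2 + 1 := by norm_num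
    rw [h2, Real.Gamma_add_one (by norm_num), Real.Gamma_one_half_eq]
    ring
  have h3 : ((((2 : ℕ) : ℝ) + 1) / 2) = (((2 : ℕ) : ℝ) / 2 + 1 / 2) := by ring
  unfold sphereVol
  rw [h3, h1]
  have h4 : Real.pi ^ (((2 : ℕ) : ℝ) / 2 + 1 / 2) = Real.pi * Real.sqrt Real.pi := by
    rw [Real.rpow_add hpi, Real.sqrt_eq_rpow]
    congr 1
    have h5 : ((2 : ℕ) : ℝ) / 2 = 1 := by norm_num
    rw [h5, Real.rpow_one]
  rw [h4]
  have h6 : Real.sqrt Real.pi ≠ 0 := (Real.sqrt_pos.2 hpi).ne'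
  field_simp
  norm_num

theorem KCS (h1 : KG1_stmt.{0}) (h2 : UPB_stmt) : KCS_stmt := by
  unfold KCS_stmt
  refine le_antisymm ?_ ?_
  · have h := h2 2 (by norm_num)
    rwa [KCS_sphere] at h
  · unfold cstar
    refine le_sInf ?_
    rintro c ⟨M, i1, i2, i3, i4, i5, i6, g, m, r, hr, hinj, rfl⟩
    have h := h1 M g m r hr hinj
    have hr2 : 0 < r ^ 2 := by positivity
    rw [ENNReal.le_div_iff_mul_le (Or.inl (ENNReal.ofReal_pos.2 hr2).ne') (Or.inl ENNReal.ofReal_ne_top),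
      ← ENNReal.ofReal_mul (by positivity)]
    exact h

end Pool.Agent.CRO
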